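import Pool.Agent.Helper38_GTO.Main3

/-! The orchard problem for three-point lines: for every `n ≥ 30000` the largest number of lines
containing exactly three points of an `n`-point planar set is `1 + ⌊n (n - 3) / 6⌋`. -/

namespace Pool.Agent.Results.MP_122998_co.ExplicitThreshold

theorem result : ∀ n : ℕ, 30000 ≤ n →
    (∃ P : Finset (EuclideanSpace ℝ (Fin 2)), P.card = n ∧
      {S : Finset (EuclideanSpace ℝ (Fin 2)) | S ⊆ P ∧ S.card = 3 ∧
        Collinear ℝ (S : Set (EuclideanSpace ℝ (Fin 2))) ∧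
        ∀ p ∈ P, Collinear ℝ (insert p (S : Set (EuclideanSpace ℝ (Fin 2)))) → p ∈ S}.ncard
        = 1 + n * (n - 3) / 6) ∧
    ∀ P : Finset (EuclideanSpace ℝ (Fin 2)), P.card = n →
      {S : Finset (EuclideanSpace ℝ (Fin 2)) | S ⊆ P ∧ S.card = 3 ∧
        Collinear ℝ (S : Set (EuclideanSpace ℝ (Fin 2))) ∧
        ∀ p ∈ P, Collinear ℝ (insert p (S : Set (EuclideanSpace ℝ (Fin 2)))) → p ∈ S}.ncard
        ≤ 1 + n * (n - 3) / 6 :=
  Pool.Agent.GTO.B3.H38.main3

end Pool.Agent.Results.MP_122998_co.ExplicitThreshold
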